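import Pool.Agent.H447R4.PA.Ex

set_option autoImplicit false

/-!
MP_739ba1_nt (Brocard's conjecture): the parity analogue, for every n.  Between the squares of two
consecutive primes p < q, p ≥ 3, and more generally between n^2 and (n+2)^2 for every n ≥ 2, there
are at least four integers with an odd number of prime factors, and at least four with an even
number.
-/

namespace Pool.Agent.Results.MP_739ba1_nt.ParityBrocard

open Pool.Agent.H447R4.PA

theorem prime_gap (n : ℕ) (hn : 1 ≤ n) :
    3 ≤ Nat.nth Nat.Prime n ∧ Nat.nth Nat.Prime n + 2 ≤ Nat.nth Nat.Prime (n + 1) := by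
  have h0 : Nat.nth Nat.Prime 0 < Nat.nth Nat.Prime n :=
    Nat.nth_strictMono Nat.infinite_setOfPred_prime (by omega)
  have h1 : Nat.nth Nat.Prime n < Nat.nth Nat.Prime (n + 1) :=
    Nat.nth_strictMono Nat.infinite_setOfPred_prime (by omega)
  have h2 : Nat.nth Nat.Prime 0 = 2 := Nat.nth_prime_zero_eq_two
  have p1 : (Nat.nth Nat.Prime n).Prime := Nat.prime_nth_prime n
  have p2 : (Nat.nth Nat.Prime (n + 1)).Prime := Nat.prime_nth_prime (n + 1)
  have o1 := p1.eq_two_or_odd
  have o2 := p2.eq_two_or_odd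
  omega

theorem result :
    (∀ n : ℕ, 2 ≤ n → ∀ j : ℕ, j < 2 →
      4 ≤ ((Finset.Ioo (n ^ 2) ((n + 2) ^ 2)).filter
        (fun y => ArithmeticFunction.cardFactors y % 2 = j)).card) ∧
    (∀ n : ℕ, 1 ≤ n → ∀ j : ℕ, j < 2 →
      4 ≤ ((Finset.Ioo ((Nat.nth Nat.Prime n) ^ 2) ((Nat.nth Nat.Prime (n + 1)) ^ 2)).filter
        (fun y => ArithmeticFunction.cardFactors y % 2 = j)).card) := by
  refine ⟨four, ?_⟩
  · intro n hn j hj
    obtain ⟨g1, g2⟩ := prime_gap n hn
    generalize Nat.nth Nat.Prime n = p at *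
    generalize Nat.nth Nat.Prime (n + 1) = q at *
    refine (four p (by omega) j hj).trans ?_
    apply Finset.card_le_card
    apply Finset.filter_subset_filter
    intro y hy
    have h5 : (p + 2) ^ 2 ≤ q ^ 2 := Nat.pow_le_pow_left g2 2
    rw [Finset.mem_Ioo] at *
    omega

end Pool.Agent.Results.MP_739ba1_nt.ParityBrocard
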