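import Pool.Agent.H447R4.PA.Broc
import Pool.Agent.H447R4.PA.Lam
import Pool.Agent.H376R2.MR.Main

set_option autoImplicit false

/-!
MP_739ba1_nt (Brocard's conjecture): a count in the parity analogue.  For large X the interval
(X, X + (11/5) sqrt X] contains at least X^(1/2 - ε) integers with an odd number of prime factors,
and as many with an even number; so between the squares of consecutive primes p < q there are at
least p^(1 - ε) of either kind.
-/

namespace Pool.Agent.Results.MP_739ba1_nt.ParityCount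

open Pool.Agent.H447R4.PA

theorem prime_gap (n : ℕ) (hn : 1 ≤ n) :
    3 ≤ Nat.nth Nat.Prime n ∧ Nat.nth Nat.Prime n + 2 ≤ Nat.nth Nat.Prime (n + 1) := by
  have h0 : Nat.nth Nat.Prime 0 < Nat.nth Nat.Prime n :=
    Nat.nth_strictMono Nat.infinite_setOfPred_prime (by omega)
  have h1 : Nat.nth Nat.Prime n < Nat.nth Nat.Prime (n + 1) :=
    Nat.nth_strictMono Nat.infinite_setOfPred_prime (by omega)
  have h2 : Nat.nth Nat.Prime 0 = 2 := Nat.nth_prime_zero_eq_two
  have p1 : (Nat.nth Nat.Prime n).Prime := Nat.prime_nth_prime n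
  have p2 : (Nat.nth Nat.Prime (n + 1)).Prime := Nat.prime_nth_prime (n + 1)
  have o1 := p1.eq_two_or_odd
  have o2 := p2.eq_two_or_odd
  omega

theorem result :
    (∀ ε : ℝ, 0 < ε → ∃ X₀ : ℕ, ∀ X : ℕ, X₀ ≤ X → ∀ j : ℕ, j < 2 →
      (X : ℝ) ^ ((1 : ℝ) / 2 - ε) ≤
        (((Finset.Ioc X (X + 11 * X.sqrt / 5)).filter
          (fun y => ArithmeticFunction.cardFactors y % 2 = j)).card : ℝ)) ∧
    (∀ ε : ℝ, 0 < ε → ∃ n₀ : ℕ, ∀ n : ℕ, n₀ ≤ n → ∀ j : ℕ, j < 2 →
      ((Nat.nth Nat.Prime n : ℕ) : ℝ) ^ (1 - ε) ≤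
        (((Finset.Ioo ((Nat.nth Nat.Prime n) ^ 2) ((Nat.nth Nat.Prime (n + 1)) ^ 2)).filter
          (fun y => ArithmeticFunction.cardFactors y % 2 = j)).card : ℝ)) := by
  have hI : ∀ ε : ℝ, 0 < ε → ∃ X₀ : ℕ, ∀ X : ℕ, X₀ ≤ X → ∀ j : ℕ, j < 2 →
      (X : ℝ) ^ ((1 : ℝ) / 2 - ε) ≤
        (((Finset.Ioc X (X + 11 * X.sqrt / 5)).filter
          (fun y => ArithmeticFunction.cardFactors y % 2 = j)).card : ℝ) := by
    intro ε hε
    obtain ⟨X₀, h⟩ := interval_count (window Pool.Agent.H376R2.MR.mr0) ε hε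
    refine ⟨X₀, ?_⟩
    intro X hX j hj
    have h1 := h X hX _ (neg_one_pow_eq_or ℤ j)
    rw [← lam_filter _ j hj]
    exact h1
  refine ⟨hI, ?_⟩
  · intro ε hε
    obtain ⟨X₀, h⟩ := hI (ε / 2) (by positivity)
    refine ⟨X₀ + 1, ?_⟩
    intro n hn j hj
    obtain ⟨g1, g2⟩ := prime_gap n (by omega)
    have g3 : n ≤ Nat.nth Nat.Prime n :=
      (Nat.nth_strictMono Nat.infinite_setOfPred_prime).id_le n
    generalize Nat.nth Nat.Prime n = p at *
    generalize Nat.nth Nat.Prime (n + 1) = q at *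
    have hpX : X₀ ≤ p ^ 2 := by nlinarith
    have h1 := h (p ^ 2) hpX j hj
    have h2 : (p ^ 2).sqrt = p := Nat.sqrt_eq' p
    rw [h2] at h1
    have hp0 : (0 : ℝ) ≤ p := Nat.cast_nonneg p
    have h3 : ((p : ℝ)) ^ (1 - ε) = ((p ^ 2 : ℕ) : ℝ) ^ ((1 : ℝ) / 2 - ε / 2) := by
      push_cast
      rw [← Real.rpow_natCast (p : ℝ) 2, ← Real.rpow_mul hp0]
      congr 1
      push_cast
      ring
    rw [h3]
    refine h1.trans ?_
    have h4 : p ^ 2 + 11 * p / 5 < q ^ 2 := by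
      have h5 : (p + 2) ^ 2 ≤ q ^ 2 := Nat.pow_le_pow_left g2 2
      have h6 : p ^ 2 + 11 * p / 5 < (p + 2) ^ 2 := by
        have : (p + 2) ^ 2 = p ^ 2 + 4 * p + 4 := by ring
        omega
      omega
    have h7 : ((Finset.Ioc (p ^ 2) (p ^ 2 + 11 * p / 5)).filter
          (fun y => ArithmeticFunction.cardFactors y % 2 = j)).card ≤
        ((Finset.Ioo (p ^ 2) (q ^ 2)).filter
          (fun y => ArithmeticFunction.cardFactors y % 2 = j)).card := by
      apply Finset.card_le_card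
      apply Finset.filter_subset_filter
      intro y hy
      rw [Finset.mem_Ioc] at hy
      rw [Finset.mem_Ioo]
      omega
    exact_mod_cast h7

end Pool.Agent.Results.MP_739ba1_nt.ParityCount
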