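import Pool.Agent.H447R4.PA.BR
import Pool.Agent.H447R4.PA.NL
import Pool.Agent.H447R4.PA.BL

set_option autoImplicit false

/-!
MP_739ba1_nt (Brocard's conjecture): the analogue for all completely multiplicative functions with
values 1, -1 and f(2) = -1, uniformly in the function and with a quartic threshold.
-/

namespace Pool.Agent.Results.MP_739ba1_nt.UniformMultiplicative

open Pool.Agent.H447R4.PA

theorem prime_gap (n : ℕ) (hn : 1 ≤ n) :
    3 ≤ Nat.nth Nat.Prime n ∧ Nat.nth Nat.Prime n + 2 ≤ Nat.nth Nat.Prime (n + 1) := by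
  have h0 : Nat.nth Nat.Prime 0 < Nat.nth Nat.Prime n :=
    Nat.nth_strictMono Nat.infinite_setOfPred_prime (by omega)
  have h1 : Nat.nth Nat.Prime n < Nat.nth Nat.Prime (n + 1) :=
    Nat.nth_strictMono Nat.infinite_setOfPred_prime (by omega)
  have h2 : Nat.nth Nat.Prime 0 = 2 := Nat.nth_prime_zero_eq_two
  have p1 : (Nat.nth Nat.Prime n).Prime := Nat.prime_nth_prime n
  have p2 : (Nat.nth Nat.Prime (n + 1)).Prime := Nat.prime_nth_prime (n + 1)
  have o1 := p1.eq_two_or_odd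
  have o2 := p2.eq_two_or_odd
  omega

theorem result :
    ∃ C : ℕ, ∀ f : ℕ → ℤ, CM f → ∀ n K : ℕ, C * (K + 1) ^ 4 ≤ Nat.nth Nat.Prime n →
      ∀ c : ℤ, (c = 1 ∨ c = -1) →
      K < ((Finset.Ioo ((Nat.nth Nat.Prime n) ^ 2) ((Nat.nth Nat.Prime (n + 1)) ^ 2)).filter
        (fun y => f y = c)).card := by
    obtain ⟨C, hC⟩ := t_BR t_NL t_BL
    refine ⟨max C 3, ?_⟩
    intro f hf n K hn c hc
    have hK1 : 1 ≤ (K + 1) ^ 4 := Nat.one_le_pow _ _ (by omega)
    have hn3 : 3 ≤ Nat.nth Nat.Prime n := by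
      have := le_max_right C 3
      nlinarith
    have hnC : C * (K + 1) ^ 4 ≤ Nat.nth Nat.Prime n :=
      le_trans (Nat.mul_le_mul_right _ (le_max_left _ _)) hn
    have hn1 : 1 ≤ n := by
      rcases Nat.eq_zero_or_pos n with h0 | h0
      · rw [h0, Nat.nth_prime_zero_eq_two] at hn3
        omega
      · exact h0
    obtain ⟨g1, g2⟩ := prime_gap n hn1
    generalize Nat.nth Nat.Prime n = p at *
    generalize Nat.nth Nat.Prime (n + 1) = q at *
    have h1 := hC f hf p K hnC (-c)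
    refine lt_of_lt_of_le h1 ?_
    apply Finset.card_le_card
    intro y hy
    rw [Finset.mem_filter, Finset.mem_Ioo] at hy
    obtain ⟨⟨h2, h3⟩, h4⟩ := hy
    have h5 : (p + 2) ^ 2 ≤ q ^ 2 := Nat.pow_le_pow_left g2 2
    rw [Finset.mem_filter, Finset.mem_Ioo]
    refine ⟨⟨h2, by omega⟩, ?_⟩
    rcases hf.val y (by omega) with h6 | h6 <;> rcases hc with h7 | h7 <;> rw [h6, h7] at h4 <;>
      rw [h6, h7]
    · norm_num at h4
    · norm_num at h4

end Pool.Agent.Results.MP_739ba1_nt.UniformMultiplicative
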